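import Pool.Agent.Y769.HC.Scheme

set_option autoImplicit false

open Set Filter Topology

namespace Pool.Agent.Y769.HC

/-- cylinders in the Baire space -/
def cyl (x : ℕ → ℕ) (n : ℕ) : Set (ℕ → ℕ) := {y | ∀ i, i < n → y i = x i}

theorem self_mem_cyl (x : ℕ → ℕ) (n : ℕ) : x ∈ cyl x n := fun _ _ => rfl

theorem isOpen_cyl (x : ℕ → ℕ) (n : ℕ) : IsOpen (cyl x n) := by
  have h := PiNat.isOpen_cylinder (fun _ => ℕ) x n
  have h2 : cyl x n = PiNat.cylinder x n := by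
    ext y
    rw [PiNat.mem_cylinder_iff]
    rfl
  rw [h2]
  exact h

theorem cyl_subset_cyl {x y : ℕ → ℕ} {m n : ℕ} (hy : y ∈ cyl x m) (hmn : m ≤ n) :
    cyl y n ⊆ cyl x m := by
  intro z hz i hi
  rw [hz i (by omega), hy i hi]

theorem tree_lemma {Y : Type*} (φ : (ℕ → ℕ) → Y) (J : Set (Set Y)) (h0 : ∅ ∈ J)
    (hher : ∀ s t, s ⊆ t → t ∈ J → s ∈ J)
    (hun : ∀ T : ℕ → Set Y, (∀ n, T n ∈ J) → ⋃ n, T n ∈ J) (hran : range φ ∉ J) :
    ∃ D : Set (ℕ → ℕ), D.Nonempty ∧ ∀ x ∈ D, ∀ n, φ '' (cyl x n ∩ D) ∉ J := by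
  classical
  have hun2 : ∀ s t, s ∈ J → t ∈ J → s ∪ t ∈ J := by
    intro s t hs ht
    refine hher _ _ ?_ (hun (fun n => if n = 0 then s else t) (fun n => ?_))
    · rintro y (hy | hy)
      · exact mem_iUnion.2 ⟨0, by simpa using hy⟩
      · exact mem_iUnion.2 ⟨1, by simpa using hy⟩
    · show (if n = 0 then s else t) ∈ J
      split_ifs
      · exact hs
      · exact ht
  let 𝒪 : Set (Set (ℕ → ℕ)) := {O | IsOpen O ∧ φ '' O ∈ J}
  obtain ⟨T, hT1, hT2, hT3⟩ := TopologicalSpace.isOpen_sUnion_countable 𝒪 (fun O hO => hO.1)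
  have hU : φ '' (⋃₀ 𝒪) ∈ J := by
    rw [← hT3]
    rcases T.eq_empty_or_nonempty with rfl | hne
    · simpa using h0
    · obtain ⟨e, rfl⟩ := hT1.exists_eq_range hne
      rw [sUnion_range, image_iUnion]
      exact hun _ (fun n => (hT2 ⟨n, rfl⟩).2)
  refine ⟨(⋃₀ 𝒪)ᶜ, ?_, ?_⟩
  · by_contra hcon
    rw [not_nonempty_iff_eq_empty, compl_empty_iff] at hcon
    rw [hcon, image_univ] at hU
    exact hran hU
  · intro x hx n hcon
    refine hx (mem_sUnion.2 ⟨cyl x n, ⟨isOpen_cyl x n, ?_⟩, self_mem_cyl x n⟩)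
    refine hher _ _ ?_ (hun2 _ _ hcon hU)
    rintro _ ⟨y, hy, rfl⟩
    by_cases hyU : y ∈ ⋃₀ 𝒪
    · exact Or.inr ⟨y, hyU, rfl⟩
    · exact Or.inl ⟨y, ⟨hy, hyU⟩, rfl⟩

theorem scheme_cyl {Y : Type*} [MetricSpace Y] [CompleteSpace Y] {φ : (ℕ → ℕ) → Y}
    (hφ : Continuous φ) {E : Set (ℕ → ℕ)} (hE : E.Nonempty)
    (h : (ℕ → ℕ) → ℕ → (ℕ → Bool) → Y) (hc : ∀ x ∈ E, ∀ n, Continuous (h x n))
    (hm : ∀ x ∈ E, ∀ n v, h x n v ∈ closure (φ '' (cyl x n ∩ E))) :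
    ∃ f : (ℕ → Bool) × (ℕ → Bool) → Y, Continuous f ∧
      (∀ u v, u ∈ EvF → ∃ x ∈ E, ∃ n, f (u, v) = h x n v) ∧
      (∀ u v, u ∉ EvF → f (u, v) ∈ range φ) := by
  obtain ⟨x0, hx0⟩ := hE
  let K : E × ℕ → Set Y := fun s => closure (φ '' (cyl s.1 s.2 ∩ E))
  let H : E × ℕ → (ℕ → Bool) → Y := fun s => h s.1 s.2
  have hjump : ∀ (s : E × ℕ) (y : Y) (k : ℕ), ∃ s' : E × ℕ, y ∈ K s →
      ((s'.1 : ℕ → ℕ) ∈ cyl s.1 s.2 ∧ s.2 < s'.2 ∧
        K s' ⊆ Metric.closedBall y (1 / ((k : ℝ) + 1))) := by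
    intro s y k
    by_cases hy : y ∈ K s
    · have hε : (0 : ℝ) < 1 / ((k : ℝ) + 1) := by positivity
      obtain ⟨_, ⟨x', ⟨hx1, hx2⟩, rfl⟩, hd⟩ := Metric.mem_closure_iff.1 hy _ (half_pos hε)
      obtain ⟨M, hM⟩ := exists_cyl_dist_lt hφ x' (half_pos hε)
      refine ⟨(⟨x', hx2⟩, max M (s.2 + 1)), fun _ => ⟨hx1, ?_, ?_⟩⟩
      · exact lt_of_lt_of_le (Nat.lt_succ_self _) (le_max_right _ _)
      · refine closure_minimal ?_ Metric.isClosed_closedBall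
        rintro _ ⟨w, ⟨hw, -⟩, rfl⟩
        have h1 := hM w (fun i hi => hw i (lt_of_lt_of_le hi (le_max_left _ _)))
        rw [Metric.mem_closedBall]
        have h2 : dist (φ w) y ≤ dist (φ w) (φ x') + dist y (φ x') := dist_triangle_right _ _ _
        linarith
    · exact ⟨s, fun h => absurd h hy⟩
  choose J hJ using hjump
  have hK : ∀ s v, H s v ∈ K s := fun s v => hm _ s.1.2 _ _
  obtain ⟨f, hf1, hf2, hf3⟩ := exists_scheme H J (⟨x0, hx0⟩, 0) K hK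
    (fun s y k hy => closure_mono (image_mono (inter_subset_inter_left _
      (cyl_subset_cyl (hJ s y k hy).1 (hJ s y k hy).2.1.le))))
    (fun s y k hy => (hJ s y k hy).2.2) (fun s => hc _ s.1.2 _) (fun s => isClosed_closure)
  refine ⟨f, hf1, ?_, ?_⟩
  · intro u v hu
    obtain ⟨s, hs⟩ := hf2 u v hu
    exact ⟨s.1, s.1.2, s.2, hs⟩
  · intro u v hu
    have hinf : ∀ N, ∃ i, N ≤ i ∧ u i = true := by
      intro N
      by_contra hcon
      push Not at hcon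
      exact hu ⟨N, fun i hi => by simpa using hcon i hi⟩
    have hlim := hf3 u v hu (fun s => φ s.1)
      (fun s => subset_closure ⟨s.1, ⟨self_mem_cyl _ _, s.1.2⟩, rfl⟩)
    let σ : ℕ → E × ℕ := st H J (⟨x0, hx0⟩, 0) u v
    have hσ : ∀ k, u k = true → ((σ (k + 1)).1 : ℕ → ℕ) ∈ cyl (σ k).1 (σ k).2 ∧
        (σ k).2 < (σ (k + 1)).2 := by
      intro k hk
      have h1 : σ (k + 1) = J (σ k) (H (σ k) (trunc k v)) k := by
        show st H J (⟨x0, hx0⟩, 0) u v (k + 1) = _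
        rw [st, if_pos hk]
      rw [h1]
      exact ⟨(hJ _ _ _ (hK _ _)).1, (hJ _ _ _ (hK _ _)).2.1⟩
    have hσ' : ∀ k, u k ≠ true → σ (k + 1) = σ k := by
      intro k hk
      show st H J (⟨x0, hx0⟩, 0) u v (k + 1) = _
      rw [st, if_neg hk]
    have hA : ∀ k k', k ≤ k' → (σ k).2 ≤ (σ k').2 ∧ ((σ k').1 : ℕ → ℕ) ∈ cyl (σ k).1 (σ k).2 := by
      intro k k' hkk
      induction k', hkk using Nat.le_induction with
      | base => exact ⟨le_rfl, self_mem_cyl _ _⟩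
      | succ k' hk ih =>
        by_cases hu' : u k' = true
        · obtain ⟨h1, h2⟩ := hσ k' hu'
          exact ⟨ih.1.trans h2.le, cyl_subset_cyl ih.2 ih.1 h1⟩
        · rw [hσ' k' hu']
          exact ih
    have hB : ∀ M, ∃ k, M ≤ (σ k).2 := by
      intro M
      induction M with
      | zero => exact ⟨0, Nat.zero_le _⟩
      | succ M ih =>
        obtain ⟨k, hk⟩ := ih
        obtain ⟨m, hm1, hm2⟩ := hinf k
        have h1 := (hA k m hm1).1
        have h2 := (hσ m hm2).2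
        exact ⟨m + 1, by omega⟩
    choose κ hκ using hB
    have hx : Tendsto (fun k => ((σ k).1 : ℕ → ℕ)) atTop
        (𝓝 (fun i => ((σ (κ (i + 1))).1 : ℕ → ℕ) i)) := by
      rw [tendsto_pi_nhds]
      intro i
      refine tendsto_const_nhds.congr' ?_
      filter_upwards [eventually_ge_atTop (κ (i + 1))] with k hk
      exact ((hA _ _ hk).2 i (lt_of_lt_of_le (Nat.lt_succ_self i) (hκ (i + 1)))).symm
    exact ⟨_, tendsto_nhds_unique ((hφ.tendsto _).comp hx) hlim⟩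

/-- The dichotomy for one analytic set: if no `F_σ` set separates `range φ` from `B'`, there is a
continuous map of the Cantor space with the eventually false sequences going into `B'` and the
others into `range φ`. -/
theorem dichotomy {Y : Type*} [MetricSpace Y] [CompleteSpace Y] {φ : (ℕ → ℕ) → Y}
    (hφ : Continuous φ) {B' : Set Y}
    (hsep : ¬ ∃ T : ℕ → Set Y, (∀ n, IsClosed (T n) ∧ Disjoint (T n) B') ∧ range φ ⊆ ⋃ n, T n) :
    ∃ H : (ℕ → Bool) → Y, Continuous H ∧ (∀ v, v ∈ EvF → H v ∈ B') ∧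
      ∀ v, v ∉ EvF → H v ∈ range φ := by
  classical
  let J : Set (Set Y) := {Z | ∃ T : ℕ → Set Y, (∀ n, IsClosed (T n) ∧ Disjoint (T n) B') ∧
    Z ⊆ ⋃ n, T n}
  obtain ⟨D, hD1, hD2⟩ := tree_lemma φ J ⟨fun _ => ∅, fun _ => ⟨isClosed_empty,
      empty_disjoint _⟩, empty_subset _⟩ (by
      rintro s t hst ⟨T, hT1, hT2⟩
      exact ⟨T, hT1, hst.trans hT2⟩) (by
      intro T hT
      choose R hR1 hR2 using hT
      refine ⟨fun k => R k.unpair.1 k.unpair.2, fun k => hR1 _ _, ?_⟩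
      intro y hy
      obtain ⟨n, hn⟩ := mem_iUnion.1 hy
      obtain ⟨m, hm⟩ := mem_iUnion.1 (hR2 n hn)
      exact mem_iUnion.2 ⟨Nat.pair n m, by simpa using hm⟩) hsep
  have hb : ∀ (x : ℕ → ℕ) (n : ℕ), ∃ b : Y, x ∈ D → b ∈ closure (φ '' (cyl x n ∩ D)) ∧ b ∈ B' := by
    intro x n
    by_cases hx : x ∈ D
    · by_contra hcon
      push Not at hcon
      refine hD2 x hx n ⟨fun _ => closure (φ '' (cyl x n ∩ D)), fun _ => ⟨isClosed_closure, ?_⟩, ?_⟩
      · rw [Set.disjoint_left]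
        intro b hb hb'
        exact (hcon b).2 hb hb'
      · exact subset_closure.trans (subset_iUnion (fun _ : ℕ => closure (φ '' (cyl x n ∩ D))) 0)
    · exact ⟨φ x, fun h => absurd h hx⟩
  choose b hb using hb
  obtain ⟨f, hf1, hf2, hf3⟩ := scheme_cyl hφ hD1 (fun x n _ => b x n)
    (fun x _ n => continuous_const) (fun x hx n _ => (hb x n hx).1)
  refine ⟨fun v => f (v, fun _ => false), hf1.comp (Continuous.prodMk continuous_id continuous_const),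
    ?_, fun v hv => hf3 v _ hv⟩
  intro v hv
  obtain ⟨x, hx, n, he⟩ := hf2 v (fun _ => false) hv
  show f (v, fun _ => false) ∈ B'
  rw [he]
  exact (hb x n hx).2

end Pool.Agent.Y769.HC
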