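import Mathlib

set_option autoImplicit false

open Set Filter Topology

namespace Pool.Agent.Y769.HC

/-- The eventually false sequences. -/
def EvF : Set (ℕ → Bool) := {u | ∃ N, ∀ i, N ≤ i → u i = false}

/-- `v` below `k`, false from `k` on -/
def trunc (k : ℕ) (v : ℕ → Bool) : ℕ → Bool := fun i => if i < k then v i else false

theorem trunc_congr {k : ℕ} {v v' : ℕ → Bool} (h : ∀ i < k, v i = v' i) :
    trunc k v = trunc k v' := by
  funext i
  by_cases hi : i < k
  · simp [trunc, hi, h i hi]
  · simp [trunc, hi]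

theorem tendsto_trunc (v : ℕ → Bool) : Tendsto (fun k => trunc k v) atTop (𝓝 v) := by
  rw [tendsto_pi_nhds]
  intro i
  refine tendsto_const_nhds.congr' ?_
  filter_upwards [eventually_gt_atTop i] with k hk
  simp [trunc, hk]

theorem eventually_agree (p : (ℕ → Bool) × (ℕ → Bool)) (M : ℕ) :
    ∀ᶠ q in 𝓝 p, ∀ i < M, q.1 i = p.1 i ∧ q.2 i = p.2 i := by
  refine (finite_Iio M).eventually_all.2 (fun i _ => ?_)
  have h1 : ∀ᶠ q in 𝓝 p, q.1 i = p.1 i := by
    have h : Tendsto (fun q : (ℕ → Bool) × (ℕ → Bool) => q.1 i) (𝓝 p) (𝓝 (p.1 i)) :=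
      ((continuous_apply i).comp continuous_fst).tendsto p
    exact h (isOpen_discrete {p.1 i} |>.mem_nhds rfl)
  have h2 : ∀ᶠ q in 𝓝 p, q.2 i = p.2 i := by
    have h : Tendsto (fun q : (ℕ → Bool) × (ℕ → Bool) => q.2 i) (𝓝 p) (𝓝 (p.2 i)) :=
      ((continuous_apply i).comp continuous_snd).tendsto p
    exact h (isOpen_discrete {p.2 i} |>.mem_nhds rfl)
  exact h1.and h2

/-- continuity of a function on the Cantor space, in terms of initial segments -/
theorem exists_agree_dist_lt {Y : Type*} [MetricSpace Y] {h : (ℕ → Bool) → Y} (hh : Continuous h)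
    (v : ℕ → Bool) {ε : ℝ} (hε : 0 < ε) :
    ∃ M, ∀ w : ℕ → Bool, (∀ i < M, w i = v i) → dist (h w) (h v) < ε := by
  have hO : IsOpen (h ⁻¹' Metric.ball (h v) ε) := Metric.isOpen_ball.preimage hh
  obtain ⟨s, hs, hvs, hsub⟩ := (PiNat.isTopologicalBasis_cylinders (fun _ => Bool)).mem_nhds_iff.1
    (hO.mem_nhds (Metric.mem_ball_self hε))
  obtain ⟨x, n, rfl⟩ := hs
  refine ⟨n, fun w hw => ?_⟩
  refine hsub (PiNat.mem_cylinder_iff.2 fun i hi => ?_)
  rw [hw i hi]
  exact PiNat.mem_cylinder_iff.1 hvs i hi

theorem exists_cyl_dist_lt {Y : Type*} [MetricSpace Y] {φ : (ℕ → ℕ) → Y} (hφ : Continuous φ)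
    (x : ℕ → ℕ) {ε : ℝ} (hε : 0 < ε) :
    ∃ M, ∀ w : ℕ → ℕ, (∀ i < M, w i = x i) → dist (φ w) (φ x) < ε := by
  have hO : IsOpen (φ ⁻¹' Metric.ball (φ x) ε) := Metric.isOpen_ball.preimage hφ
  obtain ⟨s, hs, hvs, hsub⟩ := (PiNat.isTopologicalBasis_cylinders (fun _ => ℕ)).mem_nhds_iff.1
    (hO.mem_nhds (Metric.mem_ball_self hε))
  obtain ⟨y, n, rfl⟩ := hs
  refine ⟨n, fun w hw => ?_⟩
  refine hsub (PiNat.mem_cylinder_iff.2 fun i hi => ?_)
  rw [hw i hi]
  exact PiNat.mem_cylinder_iff.1 hvs i hi

section scheme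

variable {S Y : Type*}
  (h : S → (ℕ → Bool) → Y) (J : S → Y → ℕ → S) (s0 : S)

/-- the state after `k` steps -/
def st (u v : ℕ → Bool) : ℕ → S
  | 0 => s0
  | k + 1 => if u k = true then J (st u v k) (h (st u v k) (trunc k v)) k else st u v k

/-- the approximating point after `k` steps -/
def yy (u v : ℕ → Bool) (k : ℕ) : Y := h (st h J s0 u v k) (trunc k v)

theorem st_congr {u u' v v' : ℕ → Bool} {k : ℕ} (hu : ∀ i < k, u i = u' i)
    (hv : ∀ i < k, v i = v' i) : st h J s0 u v k = st h J s0 u' v' k := by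
  induction k with
  | zero => rfl
  | succ k ih =>
    have h1 := ih (fun i hi => hu i (by omega)) (fun i hi => hv i (by omega))
    have h2 : trunc k v = trunc k v' := trunc_congr (fun i hi => hv i (by omega))
    simp only [st, h1, h2, hu k (by omega)]

theorem st_const {u v : ℕ → Bool} {N k : ℕ} (hN : N ≤ k) (hu : ∀ i, N ≤ i → i < k → u i = false) :
    st h J s0 u v k = st h J s0 u v N := by
  induction k, hN using Nat.le_induction with
  | base => rfl
  | succ k hk ih =>
    rw [st, if_neg (by simp [hu k hk (by omega)])]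
    exact ih (fun i h1 h2 => hu i h1 (by omega))

variable [MetricSpace Y] (K : S → Set Y)
  (hK : ∀ s v, h s v ∈ K s)
  (hJ : ∀ s y k, y ∈ K s → K (J s y k) ⊆ K s)
  (hJ' : ∀ s y k, y ∈ K s → K (J s y k) ⊆ Metric.closedBall y (1 / ((k : ℝ) + 1)))

omit [MetricSpace Y] in
include hK hJ in
theorem K_anti (u v : ℕ → Bool) {k k' : ℕ} (hk : k ≤ k') :
    K (st h J s0 u v k') ⊆ K (st h J s0 u v k) := by
  induction k', hk using Nat.le_induction with
  | base => exact subset_rfl
  | succ k' hk ih =>
    refine subset_trans ?_ ih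
    rw [st]
    split_ifs with hu
    · exact hJ _ _ _ (hK _ _)
    · exact subset_rfl

include hK hJ hJ' in
theorem K_jump (u v : ℕ → Bool) {m k : ℕ} (hu : u m = true) (hk : m < k) :
    K (st h J s0 u v k) ⊆ Metric.closedBall (yy h J s0 u v m) (1 / ((m : ℝ) + 1)) := by
  refine (K_anti h J s0 K hK hJ u v (Nat.succ_le_of_lt hk)).trans ?_
  have : st h J s0 u v (m.succ) = J (st h J s0 u v m) (h (st h J s0 u v m) (trunc m v)) m := by
    rw [Nat.succ_eq_add_one, st, if_pos hu]
  rw [this]
  exact hJ' _ _ _ (hK _ _)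

variable (hh : ∀ s, Continuous (h s)) 

include hK hJ hJ' hh in
theorem exists_lim [CompleteSpace Y] (u v : ℕ → Bool) :
    ∃ y, Tendsto (yy h J s0 u v) atTop (𝓝 y) := by
  by_cases hu : u ∈ EvF
  · obtain ⟨N, hN⟩ := hu
    refine ⟨h (st h J s0 u v N) v, ?_⟩
    have h1 : Tendsto (fun k => h (st h J s0 u v N) (trunc k v)) atTop
        (𝓝 (h (st h J s0 u v N) v)) := ((hh _).tendsto v).comp (tendsto_trunc v)
    refine h1.congr' ?_
    filter_upwards [eventually_ge_atTop N] with k hk
    rw [yy, st_const h J s0 hk (fun i h1 _ => hN i h1)]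
  · have hinf : ∀ N, ∃ i, N ≤ i ∧ u i = true := by
      intro N
      by_contra hcon
      push Not at hcon
      exact hu ⟨N, fun i hi => by simpa using hcon i hi⟩
    refine cauchySeq_tendsto_of_complete (Metric.cauchySeq_iff'.2 fun ε hε => ?_)
    obtain ⟨n, hn⟩ := exists_nat_one_div_lt (half_pos hε)
    obtain ⟨m, hm, hum⟩ := hinf n
    have hm1 : 1 / ((m : ℝ) + 1) < ε / 2 := by
      refine lt_of_le_of_lt ?_ hn
      apply one_div_le_one_div_of_le (by positivity)
      have : (n : ℝ) ≤ m := by exact_mod_cast hm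
      linarith
    refine ⟨m + 1, fun k hk => ?_⟩
    have h1 := K_jump h J s0 K hK hJ hJ' u v hum (show m < k by omega) (hK _ (trunc k v))
    have h2 := K_jump h J s0 K hK hJ hJ' u v hum (show m < m + 1 by omega) (hK _ (trunc (m+1) v))
    rw [Metric.mem_closedBall] at h1 h2
    calc dist (yy h J s0 u v k) (yy h J s0 u v (m + 1))
        ≤ dist (yy h J s0 u v k) (yy h J s0 u v m) + dist (yy h J s0 u v (m + 1)) (yy h J s0 u v m) :=
          dist_triangle_right _ _ _
      _ ≤ 1 / ((m : ℝ) + 1) + 1 / ((m : ℝ) + 1) := add_le_add h1 h2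
      _ < ε := by linarith

include hK hJ hJ' hh in
/-- The abstract scheme. -/
theorem exists_scheme [CompleteSpace Y] (hKc : ∀ s, IsClosed (K s)) :
    ∃ f : (ℕ → Bool) × (ℕ → Bool) → Y, Continuous f ∧
      (∀ u v, u ∈ EvF → ∃ s, f (u, v) = h s v) ∧
      (∀ u v, u ∉ EvF → ∀ pt : S → Y, (∀ s, pt s ∈ K s) →
        Tendsto (fun k => pt (st h J s0 u v k)) atTop (𝓝 (f (u, v)))) := by
  choose g hg using exists_lim h J s0 K hK hJ hJ' hh
  have hgK : ∀ u v k, g u v ∈ K (st h J s0 u v k) := by
    intro u v k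
    refine (hKc _).mem_of_tendsto (hg u v) ?_
    filter_upwards [eventually_ge_atTop k] with k' hk'
    exact K_anti h J s0 K hK hJ u v hk' (hK _ _)
  have hgE : ∀ u v N, (∀ i, N ≤ i → u i = false) → g u v = h (st h J s0 u v N) v := by
    intro u v N hN
    refine tendsto_nhds_unique (hg u v) ?_
    have h1 : Tendsto (fun k => h (st h J s0 u v N) (trunc k v)) atTop
        (𝓝 (h (st h J s0 u v N) v)) := ((hh _).tendsto v).comp (tendsto_trunc v)
    refine h1.congr' ?_
    filter_upwards [eventually_ge_atTop N] with k hk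
    rw [yy, st_const h J s0 hk (fun i h1 _ => hN i h1)]
  refine ⟨fun p => g p.1 p.2, ?_, ?_, ?_⟩
  · rw [continuous_iff_continuousAt]
    rintro ⟨u, v⟩
    rw [ContinuousAt, Metric.tendsto_nhds]
    intro ε hε
    by_cases hu : u ∈ EvF
    · obtain ⟨N, hN⟩ := hu
      obtain ⟨M0, hM0⟩ := exists_agree_dist_lt (hh (st h J s0 u v N)) v (half_pos hε)
      obtain ⟨n, hn⟩ := exists_nat_one_div_lt (half_pos hε)
      let M := max N (max M0 n)
      filter_upwards [eventually_agree (u, v) M] with q hq
      obtain ⟨u', v'⟩ := q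
      have hq1 : ∀ i < M, u' i = u i := fun i hi => (hq i hi).1
      have hq2 : ∀ i < M, v' i = v i := fun i hi => (hq i hi).2
      show dist (g u' v') (g u v) < ε
      rw [hgE u v N hN]
      have hNM : N ≤ M := le_max_left _ _
      have hM0M : M0 ≤ M := (le_max_left _ _).trans (le_max_right _ _)
      have hnM : n ≤ M := (le_max_right _ _).trans (le_max_right _ _)
      have hstN : st h J s0 u' v' N = st h J s0 u v N :=
        st_congr h J s0 (fun i hi => hq1 i (by omega)) (fun i hi => hq2 i (by omega))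
      by_cases hex : ∃ m, M ≤ m ∧ u' m = true
      · -- the first jump
        classical
        have hfind := Nat.find_spec hex
        have hmin : ∀ i, M ≤ i → i < Nat.find hex → u' i = false := by
          intro i h1 h2
          have h3 := Nat.find_min hex h2
          simpa [h1] using h3
        have hconst : st h J s0 u' v' (Nat.find hex) = st h J s0 u' v' N := by
          refine st_const h J s0 (hNM.trans hfind.1) (fun i h1 h2 => ?_)
          rcases lt_or_ge i M with h3 | h3
          · rw [hq1 i h3]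
            exact hN i h1
          · exact hmin i h3 h2
        have h1 := K_jump h J s0 K hK hJ hJ' u' v' hfind.2 (Nat.lt_succ_self _)
          (hgK u' v' _)
        rw [Metric.mem_closedBall, yy, hconst, hstN] at h1
        have h2 : dist (h (st h J s0 u v N) (trunc (Nat.find hex) v'))
            (h (st h J s0 u v N) v) < ε / 2 := by
          refine hM0 _ (fun i hi => ?_)
          have hiM : i < M := by omega
          have : i < Nat.find hex := by
            have := hfind.1
            omega
          simp only [trunc, this, if_true]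
          exact hq2 i hiM
        have h3 : 1 / (((Nat.find hex : ℕ) : ℝ) + 1) < ε / 2 := by
          refine lt_of_le_of_lt ?_ hn
          apply one_div_le_one_div_of_le (by positivity)
          have : (n : ℝ) ≤ (Nat.find hex : ℕ) := by exact_mod_cast hnM.trans hfind.1
          linarith
        calc dist (g u' v') (h (st h J s0 u v N) v)
            ≤ dist (g u' v') (h (st h J s0 u v N) (trunc (Nat.find hex) v')) +
              dist (h (st h J s0 u v N) (trunc (Nat.find hex) v')) (h (st h J s0 u v N) v) :=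
              dist_triangle _ _ _
          _ < ε := by linarith
      · push Not at hex
        have hN' : ∀ i, N ≤ i → u' i = false := by
          intro i hi
          rcases lt_or_ge i M with h3 | h3
          · rw [hq1 i h3]
            exact hN i hi
          · simpa using hex i h3
        rw [hgE u' v' N hN', hstN]
        have := hM0 v' (fun i hi => hq2 i (by omega))
        linarith
    · have hinf : ∀ N, ∃ i, N ≤ i ∧ u i = true := by
        intro N
        by_contra hcon
        push Not at hcon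
        exact hu ⟨N, fun i hi => by simpa using hcon i hi⟩
      obtain ⟨n, hn⟩ := exists_nat_one_div_lt (half_pos hε)
      obtain ⟨m, hm, hum⟩ := hinf n
      have hm1 : 1 / ((m : ℝ) + 1) < ε / 2 := by
        refine lt_of_le_of_lt ?_ hn
        apply one_div_le_one_div_of_le (by positivity)
        have : (n : ℝ) ≤ m := by exact_mod_cast hm
        linarith
      filter_upwards [eventually_agree (u, v) (m + 1)] with q hq
      obtain ⟨u', v'⟩ := q
      have hq1 : ∀ i < m + 1, u' i = u i := fun i hi => (hq i hi).1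
      have hq2 : ∀ i < m + 1, v' i = v i := fun i hi => (hq i hi).2
      show dist (g u' v') (g u v) < ε
      have hst : st h J s0 u' v' (m + 1) = st h J s0 u v (m + 1) := st_congr h J s0 hq1 hq2
      have h1 := K_jump h J s0 K hK hJ hJ' u v hum (Nat.lt_succ_self _) (hst ▸ hgK u' v' (m + 1))
      have h2 := K_jump h J s0 K hK hJ hJ' u v hum (Nat.lt_succ_self _) (hgK u v (m + 1))
      rw [Metric.mem_closedBall] at h1 h2
      calc dist (g u' v') (g u v) ≤ dist (g u' v') (yy h J s0 u v m) +
            dist (g u v) (yy h J s0 u v m) := dist_triangle_right _ _ _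
        _ < ε := by linarith
  · rintro u v ⟨N, hN⟩
    exact ⟨_, hgE u v N hN⟩
  · intro u v hu pt hpt
    show Tendsto (fun k => pt (st h J s0 u v k)) atTop (𝓝 (g u v))
    rw [Metric.tendsto_atTop]
    intro ε hε
    have hinf : ∀ N, ∃ i, N ≤ i ∧ u i = true := by
      intro N
      by_contra hcon
      push Not at hcon
      exact hu ⟨N, fun i hi => by simpa using hcon i hi⟩
    obtain ⟨n, hn⟩ := exists_nat_one_div_lt (half_pos hε)
    obtain ⟨m, hm, hum⟩ := hinf n
    have hm1 : 1 / ((m : ℝ) + 1) < ε / 2 := by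
      refine lt_of_le_of_lt ?_ hn
      apply one_div_le_one_div_of_le (by positivity)
      have : (n : ℝ) ≤ m := by exact_mod_cast hm
      linarith
    refine ⟨m + 1, fun k hk => ?_⟩
    have h1 := K_jump h J s0 K hK hJ hJ' u v hum (show m < k by omega) (hpt _)
    have h2 := K_jump h J s0 K hK hJ hJ' u v hum (show m < k by omega) (hgK u v k)
    rw [Metric.mem_closedBall] at h1 h2
    calc dist (pt (st h J s0 u v k)) (g u v) ≤ dist (pt (st h J s0 u v k)) (yy h J s0 u v m) +
          dist (g u v) (yy h J s0 u v m) := dist_triangle_right _ _ _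
      _ < ε := by linarith

end scheme

end Pool.Agent.Y769.HC
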