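import Pool.Agent.Y769.HC.Dichotomy

set_option autoImplicit false

open Set Filter Topology

namespace Pool.Agent.Y769.HC

theorem exists_param {A : Set ℝ} (hA : MeasurableSet A) (hne : A.Nonempty) :
    ∃ φ : (ℕ → ℕ) → ℝ, Continuous φ ∧ range φ = A := by
  have h := hA.analyticSet
  rw [MeasureTheory.AnalyticSet] at h
  rcases h with h | h
  · exact absurd h hne.ne_empty
  · exact h

/-- A Borel set of reals that is not the intersection of an `F_σ` and a `G_δ` pulls back, under a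
continuous map of the square of the Cantor space, to the model set. -/
theorem two_dim {B : Set ℝ} (hB : MeasurableSet B)
    (hnot : ¬ ∃ T U : ℕ → Set ℝ, (∀ n, IsClosed (T n)) ∧ (∀ n, IsOpen (U n)) ∧
      B = (⋃ n, T n) ∩ ⋂ n, U n) :
    ∃ f : (ℕ → Bool) × (ℕ → Bool) → ℝ, Continuous f ∧
      ∀ u v, f (u, v) ∈ B ↔ (u ∉ EvF ∨ v ∈ EvF) := by
  classical
  have hBne : B.Nonempty := by
    by_contra hcon
    rw [not_nonempty_iff_eq_empty] at hcon
    refine hnot ⟨fun _ => ∅, fun _ => univ, fun _ => isClosed_empty, fun _ => isOpen_univ, ?_⟩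
    rw [hcon]
    simp
  obtain ⟨φ, hφ, hφB⟩ := exists_param hB hBne
  let J : Set (Set ℝ) := {Z | ∃ T : ℕ → Set ℝ, (∀ n, IsClosed (T n) ∧
    ∃ R : ℕ → Set ℝ, (∀ m, IsClosed (R m)) ∧ T n \ B = ⋃ m, R m) ∧ Z ⊆ ⋃ n, T n}
  have hran : range φ ∉ J := by
    rintro ⟨T, hT1, hT2⟩
    choose hTc R hRc hR using hT1
    refine hnot ⟨T, fun k => (R k.unpair.1 k.unpair.2)ᶜ, hTc,
      fun k => (hRc _ _).isOpen_compl, ?_⟩
    rw [hφB] at hT2
    ext x
    constructor
    · intro hx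
      refine ⟨hT2 hx, mem_iInter.2 fun k hk => ?_⟩
      have : x ∈ T k.unpair.1 \ B := by
        rw [hR]
        exact mem_iUnion.2 ⟨_, hk⟩
      exact this.2 hx
    · rintro ⟨hx1, hx2⟩
      by_contra hxB
      obtain ⟨n, hn⟩ := mem_iUnion.1 hx1
      have : x ∈ T n \ B := ⟨hn, hxB⟩
      rw [hR] at this
      obtain ⟨m, hm⟩ := mem_iUnion.1 this
      have h3 := mem_iInter.1 hx2 (Nat.pair n m)
      simp only [Nat.unpair_pair] at h3
      exact h3 hm
  obtain ⟨D, hD1, hD2⟩ := tree_lemma φ J ⟨fun _ => ∅, fun _ => ⟨isClosed_empty,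
      fun _ => ∅, fun _ => isClosed_empty, by simp⟩, empty_subset _⟩ (by
      rintro s t hst ⟨T, hT1, hT2⟩
      exact ⟨T, hT1, hst.trans hT2⟩) (by
      intro T hT
      choose R hR1 hR2 using hT
      refine ⟨fun k => R k.unpair.1 k.unpair.2, fun k => hR1 _ _, ?_⟩
      intro y hy
      obtain ⟨n, hn⟩ := mem_iUnion.1 hy
      obtain ⟨m, hm⟩ := mem_iUnion.1 (hR2 n hn)
      exact mem_iUnion.2 ⟨Nat.pair n m, by simpa using hm⟩) hran
  have hH : ∀ (x : ℕ → ℕ) (n : ℕ), ∃ H : (ℕ → Bool) → ℝ, x ∈ D → Continuous H ∧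
      (∀ v, H v ∈ closure (φ '' (cyl x n ∩ D))) ∧ ∀ v, H v ∈ B ↔ v ∈ EvF := by
    intro x n
    by_cases hx : x ∈ D
    · have hC : IsClosed (closure (φ '' (cyl x n ∩ D))) := isClosed_closure
      have hnF : ¬ ∃ R : ℕ → Set ℝ, (∀ m, IsClosed (R m)) ∧
          closure (φ '' (cyl x n ∩ D)) \ B = ⋃ m, R m := by
        intro hR
        exact hD2 x hx n ⟨fun _ => closure (φ '' (cyl x n ∩ D)), fun _ => ⟨isClosed_closure, hR⟩,
          subset_closure.trans (subset_iUnion (fun _ : ℕ => closure (φ '' (cyl x n ∩ D))) 0)⟩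
      have hne : (closure (φ '' (cyl x n ∩ D)) \ B).Nonempty := by
        by_contra hcon
        rw [not_nonempty_iff_eq_empty] at hcon
        exact hnF ⟨fun _ => ∅, fun _ => isClosed_empty, by rw [hcon]; simp⟩
      obtain ⟨ψ, hψ, hψC⟩ := exists_param (hC.measurableSet.diff hB) hne
      obtain ⟨H, hH1, hH2, hH3⟩ := dichotomy hψ (B' := closure (φ '' (cyl x n ∩ D)) ∩ B) (by
        rintro ⟨T, hT1, hT2⟩
        refine hnF ⟨fun m => T m ∩ closure (φ '' (cyl x n ∩ D)),
          fun m => (hT1 m).1.inter isClosed_closure, ?_⟩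
        ext y
        constructor
        · intro hy
          rw [← hψC] at hy
          obtain ⟨m, hm⟩ := mem_iUnion.1 (hT2 hy)
          rw [hψC] at hy
          exact mem_iUnion.2 ⟨m, hm, hy.1⟩
        · intro hy
          obtain ⟨m, hm1, hm2⟩ := mem_iUnion.1 hy
          exact ⟨hm2, fun hyB => Set.disjoint_left.1 (hT1 m).2 hm1 ⟨hm2, hyB⟩⟩)
      refine ⟨H, fun _ => ⟨hH1, fun v => ?_, fun v => ?_⟩⟩
      · by_cases hv : v ∈ EvF
        · exact (hH2 v hv).1
        · have := hH3 v hv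
          rw [hψC] at this
          exact this.1
      · by_cases hv : v ∈ EvF
        · exact ⟨fun _ => hv, fun _ => (hH2 v hv).2⟩
        · have := hH3 v hv
          rw [hψC] at this
          exact ⟨fun h => absurd h this.2, fun h => absurd h hv⟩
    · exact ⟨fun _ => 0, fun h => absurd h hx⟩
  choose H hH using hH
  obtain ⟨f, hf1, hf2, hf3⟩ := scheme_cyl hφ hD1 H (fun x hx n => (hH x n hx).1)
    (fun x hx n v => (hH x n hx).2.1 v)
  refine ⟨f, hf1, fun u v => ?_⟩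
  by_cases hu : u ∈ EvF
  · obtain ⟨x, hx, n, he⟩ := hf2 u v hu
    rw [he, (hH x n hx).2.2 v]
    exact ⟨Or.inr, fun h => h.resolve_left (fun h' => h' hu)⟩
  · have := hf3 u v hu
    rw [hφB] at this
    exact ⟨fun _ => Or.inl hu, fun _ => this⟩

end Pool.Agent.Y769.HC
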